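import Mathlib

/-! The definitions used in the statement of the classification of the measures `μ` for which
`L¹(μ)` is isomorphic to a dual Banach space. -/

namespace L1Dual

open MeasureTheory Cardinal
open scoped ENNReal

universe u v w

/-- `X` is isomorphic to the dual of a Banach space `Y`. -/
def IsoToDual (𝕜 : Type v) [RCLike 𝕜] (X : Type u) [NormedAddCommGroup X] [NormedSpace 𝕜 X] :
    Prop :=
  ∃ (Y : Type w) (_ : NormedAddCommGroup Y) (_ : NormedSpace 𝕜 Y) (_ : CompleteSpace Y),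
    Nonempty (X ≃L[𝕜] (Y →L[𝕜] 𝕜))

section
variable {Ω : Type u} [MeasurableSpace Ω]

/-- The family `𝒢` generates `μ` on `B` modulo null sets: every measurable subset `E` of `B` agrees,
up to a null set, with `G ∩ B` for some `G` in the `σ`-algebra generated by `𝒢`. -/
def Generates (μ : Measure Ω) (𝒢 : Set (Set Ω)) (B : Set Ω) : Prop :=
  ∀ E ⊆ B, MeasurableSet E →
    ∃ G, MeasurableSet[MeasurableSpace.generateFrom 𝒢] G ∧ μ (symmDiff E (G ∩ B)) = 0

/-- `A` is `κ`-thick: it is measurable, of finite positive measure, and no measurable subset of `A` of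
positive measure is generated, modulo null sets, by fewer than `κ` measurable sets (that is, `μ` has
Maharam type at least `κ` on every part of `A`). -/
def Thick (μ : Measure Ω) (κ : Cardinal.{u}) (A : Set Ω) : Prop :=
  MeasurableSet A ∧ 0 < μ A ∧ μ A ≠ ∞ ∧ ∀ B ⊆ A, MeasurableSet B → 0 < μ B →
    ∀ 𝒢 : Set (Set Ω), (∀ G ∈ 𝒢, MeasurableSet G) → #𝒢 < κ → ¬ Generates μ 𝒢 B

/-- The condition `(C_κ)`: if there is a `κ`-thick set, then there are at least `2 ^ κ` such sets which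
pairwise intersect in null sets. -/
def Cond (μ : Measure Ω) (κ : Cardinal.{u}) : Prop :=
  (∃ A, Thick μ κ A) → ∃ 𝒞 : Set (Set Ω), 2 ^ κ ≤ #𝒞 ∧
    𝒞.Pairwise (fun A B => μ (A ∩ B) = 0) ∧ ∀ C ∈ 𝒞, Thick μ κ C

end

/-- Martin's axiom for `ℵ₁` dense sets: for every partial order in which all antichains are countable
and every family of at most `ℵ₁` dense sets there is a filter meeting all of them. -/
def MartinAxiomAlephOne : Prop :=
  ∀ (P : Type) [PartialOrder P] [Nonempty P],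
    (∀ A : Set P, (∀ a ∈ A, ∀ b ∈ A, a ≠ b → ¬ ∃ c, c ≤ a ∧ c ≤ b) → A.Countable) →
    ∀ (ι : Type) (D : ι → Set P), #ι ≤ ℵ₁ → (∀ i p, ∃ q ∈ D i, q ≤ p) →
      ∃ G : Set P, (∀ p ∈ G, ∀ q, p ≤ q → q ∈ G) ∧
        (∀ p ∈ G, ∀ q ∈ G, ∃ r ∈ G, r ≤ p ∧ r ≤ q) ∧ ∀ i, (G ∩ D i).Nonempty

end L1Dual
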